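import Mathlib
import Pool.Agent.Lib.MP_b55e0a_lc.Main

/-!
MP_b55e0a_lc: disk graphs of bounded degree need doubly exponential ratios of radii.
-/

namespace Pool.Agent.Results.MP_b55e0a_lc.DoublyExponential

/-- The closed disks of the plane with centres `c v` and radii `r v > 0` represent the graph `G`:
distinct vertices are adjacent if and only if their disks intersect. -/
def IsDiskRepresentation {V : Type} (G : SimpleGraph V) (c : V → EuclideanSpace ℝ (Fin 2))
    (r : V → ℝ) : Prop :=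
  (∀ v, 0 < r v) ∧ ∀ u v, u ≠ v →
    (G.Adj u v ↔ (Metric.closedBall (c u) (r u) ∩ Metric.closedBall (c v) (r v)).Nonempty)

/-- There are constants `Δ`, `C` such that for every `N` some disk graph with at most `C (N + 1)`
vertices and maximum degree at most `Δ` has, in each of its disk representations, two disks with
ratio of radii at least `2 ^ 2 ^ N`. -/
theorem result : ∃ Δ C : ℕ, ∀ N : ℕ, ∃ (V : Type) (_ : Fintype V) (G : SimpleGraph V),
    Fintype.card V ≤ C * (N + 1) ∧ (∀ v, (G.neighborSet v).ncard ≤ Δ) ∧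
    (∃ (c : V → EuclideanSpace ℝ (Fin 2)) (r : V → ℝ), IsDiskRepresentation G c r) ∧
    ∀ (c : V → EuclideanSpace ℝ (Fin 2)) (r : V → ℝ), IsDiskRepresentation G c r →
      ∃ u v, 2 ^ (2 ^ N) * r v ≤ r u := by
  obtain ⟨R, hR⟩ : ∃ R : ℕ, (10 ^ 10 + 2) ^ 2 ≤ R := ⟨_, le_rfl⟩
  refine ⟨198 + 176 * R, 67 * R, fun N => ?_⟩
  obtain ⟨V, hV, G, h1, h2, h3, h4⟩ := BDD.main R hR N
  exact ⟨V, hV, G, h1, h2, h3, fun c r h => h4 c r h.1 h.2⟩

end Pool.Agent.Results.MP_b55e0a_lc.DoublyExponential
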